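import Pool.Agent.NH29.GN.Sta
import Pool.Agent.NH29.GN.Stm2

/-!
# Uniform bounds for integral points, part 1: the unit equation

The nondegenerate solutions of `∑ w_j = 0` in a finitely generated group have finitely many ratios.
-/

set_option autoImplicit false

namespace Run7.h789.UN

open Module Filter Pool.Agent.NH29.GN

/-- FINE -/
theorem fine : FineStm := by
  classical
  intro K _ hUE Γ hΓ J _
  -- it is enough to have finitely many ratios for each pair of indices
  suffices h : ∀ i j : J, {e : K | ∃ w : J → Kˣ, (∀ j, w j ∈ Γ) ∧ ∑ j, (w j : K) = 0 ∧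
      (∀ S : Finset J, S.Nonempty → S ≠ Finset.univ → ∑ j ∈ S, (w j : K) ≠ 0) ∧
      e = (w i : K) / w j}.Finite by
    refine ⟨Finset.univ.biUnion fun i => Finset.univ.biUnion fun j => (h i j).toFinset, ?_⟩
    intro w hw h0 hS i j
    rw [Finset.mem_biUnion]
    refine ⟨i, Finset.mem_univ i, ?_⟩
    rw [Finset.mem_biUnion]
    refine ⟨j, Finset.mem_univ j, ?_⟩
    rw [Set.Finite.mem_toFinset]
    exact ⟨w, hw, h0, hS, rfl⟩
  intro i₀ j₀
  by_contra hinf
  have hinf' : Set.Infinite {e : K | ∃ w : J → Kˣ, (∀ j, w j ∈ Γ) ∧ ∑ j, (w j : K) = 0 ∧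
      (∀ S : Finset J, S.Nonempty → S ≠ Finset.univ → ∑ j ∈ S, (w j : K) ≠ 0) ∧
      e = (w i₀ : K) / w j₀} := hinf
  have := hinf'.to_subtype
  let e := Infinite.natEmbedding {e : K | ∃ w : J → Kˣ, (∀ j, w j ∈ Γ) ∧ ∑ j, (w j : K) = 0 ∧
      (∀ S : Finset J, S.Nonempty → S ≠ Finset.univ → ∑ j ∈ S, (w j : K) ≠ 0) ∧
      e = (w i₀ : K) / w j₀}
  have he : ∀ s : ℕ, ∃ w : J → Kˣ, (∀ j, w j ∈ Γ) ∧ ∑ j, (w j : K) = 0 ∧
      (∀ S : Finset J, S.Nonempty → S ≠ Finset.univ → ∑ j ∈ S, (w j : K) ≠ 0) ∧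
      (e s : K) = (w i₀ : K) / w j₀ := fun s => (e s).2
  choose w hwΓ hw0 hwS hwe using he
  obtain ⟨𝒰, h𝒰⟩ : ∃ 𝒰 : Ultrafilter ℕ, 𝒰 = hyperfilter ℕ := ⟨_, rfl⟩
  -- eventual proportionality
  let r : Setoid J :=
    { r := fun a b => ∃ c : K, ∀ᶠ s in (𝒰 : Filter ℕ), (w s a : K) = c * w s b
      iseqv :=
        { refl := fun a => ⟨1, Eventually.of_forall fun s => (one_mul _).symm⟩
          symm := by
            rintro a b ⟨c, hc⟩
            refine ⟨c⁻¹, hc.mono fun s hs => ?_⟩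
            have hc0 : c ≠ 0 := by
              rintro rfl
              rw [zero_mul] at hs
              exact (w s a).ne_zero hs
            rw [hs, inv_mul_cancel_left₀ hc0]
          trans := by
            rintro a b b' ⟨c, hc⟩ ⟨c', hc'⟩
            refine ⟨c * c', (hc.and hc').mono fun s hs => ?_⟩
            rw [hs.1, hs.2, mul_assoc] } }
  have hr : ∀ a b : J, r a b ↔ ∃ c : K, ∀ᶠ s in (𝒰 : Filter ℕ), (w s a : K) = c * w s b :=
    fun _ _ => Iff.rfl
  let Q := Quotient r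
  let rp : Q → J := Quotient.out
  have hrp : ∀ a : J, r a (rp (Quotient.mk r a)) := fun a =>
    Setoid.symm' r (Quotient.mk_out (s := r) a)
  choose c hc using fun a => (hr _ _).1 (hrp a)
  -- the coefficients
  let A : Q → K := fun x => ∑ a ∈ Finset.univ.filter (fun a => Quotient.mk r a = x), c a
  have hall : ∀ᶠ s in (𝒰 : Filter ℕ), ∀ a, (w s a : K) = c a * w s (rp (Quotient.mk r a)) :=
    eventually_all.2 hc
  have hcls : ∀ᶠ s in (𝒰 : Filter ℕ), ∀ x : Q,
      ∑ a ∈ Finset.univ.filter (fun a => Quotient.mk r a = x), (w s a : K) =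
        A x * w s (rp x) := by
    filter_upwards [hall] with s hs x
    rw [Finset.sum_mul]
    refine Finset.sum_congr rfl fun a ha => ?_
    rw [hs a, (Finset.mem_filter.1 ha).2]
  have hA : ∀ x, A x = 0 := by
    refine hUE Γ hΓ 𝒰 Q (fun x s => w s (rp x)) (fun x s => hwΓ s _) ?_ A ?_
    · intro x y hxy c' hev
      apply hxy
      have h1 : r (rp x) (rp y) := ⟨c', hev⟩
      have h2 : Quotient.mk r (rp x) = Quotient.mk r (rp y) := Quotient.sound h1
      rwa [Quotient.out_eq, Quotient.out_eq] at h2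
    · filter_upwards [hcls] with s hs
      have h1 : ∑ x : Q, ∑ a ∈ Finset.univ.filter (fun a => Quotient.mk r a = x), (w s a : K) =
          ∑ a, (w s a : K) :=
        Finset.sum_fiberwise Finset.univ (fun a => Quotient.mk r a) fun a => (w s a : K)
      rw [← Finset.sum_congr rfl fun x _ => hs x, h1]
      exact hw0 s
  -- all indices are equivalent
  have hone : r i₀ j₀ := by
    obtain ⟨s, hs⟩ := hcls.exists
    have h1 := hs (Quotient.mk r j₀)
    rw [hA, zero_mul] at h1
    have h2 : (Finset.univ.filter fun a => Quotient.mk r a = Quotient.mk r j₀) = Finset.univ := by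
      by_contra hne
      exact hwS s (Finset.univ.filter fun a => Quotient.mk r a = Quotient.mk r j₀)
        ⟨j₀, Finset.mem_filter.2 ⟨Finset.mem_univ _, rfl⟩⟩ hne h1
    have h3 : i₀ ∈ (Finset.univ.filter fun a => Quotient.mk r a = Quotient.mk r j₀) := by
      rw [h2]
      exact Finset.mem_univ _
    exact Quotient.exact (Finset.mem_filter.1 h3).2
  obtain ⟨c', hc'⟩ := hone
  -- a contradiction
  have h1 : {s | (w s i₀ : K) = c' * w s j₀}.Infinite := by
    intro hfin
    rw [h𝒰] at hc'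
    exact (notMem_hyperfilter_of_finite hfin) hc'
  obtain ⟨s₁, hs₁, s₂, hs₂, hne⟩ := h1.nontrivial
  apply hne
  apply e.injective
  apply Subtype.ext
  have hs₁' : (w s₁ i₀ : K) = c' * w s₁ j₀ := hs₁
  have hs₂' : (w s₂ i₀ : K) = c' * w s₂ j₀ := hs₂
  rw [hwe, hwe, hs₁', hs₂', mul_div_assoc, mul_div_assoc, div_self (w s₁ j₀).ne_zero,
    div_self (w s₂ j₀).ne_zero]

end Run7.h789.UN
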