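import Pool.Agent.NH29.GH.Nrm
import Pool.Agent.NH29.GH.Cnp

/-!
# Uniform bounds for integral points, part 5: norms of the values of the forms
-/

set_option autoImplicit false

namespace Run7.h789.UN

open Height NumberField Module
open Pool.Agent.NH29.GN (Idx Mon fv val)
open Pool.Agent.NH29.GH (Off cntP sup)
open Pool.Agent.NH29.GH.Nrm (below log_norm below_off below_ideal)
open Pool.Agent.NH29.GN.CntAux (F F_le pos_F pos_T pos_X nn nn_nonneg nn_eq nn_zero fin_supp)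

variable {κ E : Type} [Field κ] [NumberField κ] [Field E] [NumberField E] [Algebra κ E]

theorem val_le_one_iff (w : FinitePlace κ) (x : κ) :
    w x ≤ 1 ↔ w.maximalIdeal.valuation κ x ≤ 1 := by
  rw [← FinitePlace.norm_embedding_eq, FinitePlace.norm_embedding,
    NumberField.HeightOneSpectrum.adicAbv_def]
  rw [← NNReal.coe_one, NNReal.coe_le_coe]
  exact WithZeroMulInt.toNNReal_le_one_iff
    (NumberField.HeightOneSpectrum.one_lt_absNorm_nnreal w.maximalIdeal)

theorem below_le_one (w : FinitePlace E) {c : κ} (h : below κ w c ≤ 1) :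
    w (algebraMap κ E c) ≤ 1 := by
  have hlo : w.maximalIdeal.asIdeal.LiesOver (below κ w).maximalIdeal.asIdeal :=
    ⟨below_ideal w⟩
  rw [val_le_one_iff] at h ⊢
  rw [← IsDedekindDomain.HeightOneSpectrum.valuation_liesOver E (below κ w).maximalIdeal
    w.maximalIdeal c]
  exact pow_le_one' h _

theorem below_le (w : FinitePlace E) {c c' : κ} (h : below κ w c ≤ below κ w c') :
    w (algebraMap κ E c) ≤ w (algebraMap κ E c') := by
  by_cases hc : c' = 0
  · subst hc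
    rw [map_zero] at h
    have h1 : below κ w c = 0 := le_antisymm h (apply_nonneg _ _)
    have h2 : c = 0 := by
      by_contra h3
      exact (FinitePlace.pos_iff.2 h3).ne' h1
    rw [h2]
  · have h1 : below κ w (c / c') ≤ 1 := by
      rw [map_div₀]
      exact div_le_one_of_le₀ h (apply_nonneg _ _)
    have h2 := below_le_one w h1
    rw [map_div₀, map_div₀] at h2
    have h3 : 0 < w (algebraMap κ E c') := FinitePlace.pos_iff.2 (by rwa [Ne, map_eq_zero])
    exact (div_le_one₀ h3).1 h2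

open scoped Classical in
/-- the sum over the places above `v` of the logarithms of the content -/
theorem sum_sup {ι : Type} [Finite ι] (t : ι → κ) (ht : ∃ i, t i ≠ 0) (v : FinitePlace κ)
    (S : Finset (FinitePlace E))
    (hS : ∀ w ∉ S, ∀ i, t i ≠ 0 → w (algebraMap κ E (t i)) = 1) :
    (∑ w ∈ S, if below κ w = v then Real.log (⨆ i, w (algebraMap κ E (t i))) else 0) =
      finrank κ E * Real.log (⨆ i, v (t i)) := by
  obtain ⟨i₀, hi₀⟩ := ht
  have : Nonempty ι := ⟨i₀⟩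
  obtain ⟨j, hj⟩ := exists_eq_ciSup_of_finite (f := fun i => v (t i))
  have hle : ∀ i, v (t i) ≤ v (t j) := fun i => by
    rw [hj]
    exact le_ciSup (Set.finite_range fun i => v (t i)).bddAbove i
  have hj0 : t j ≠ 0 := by
    intro h
    have h1 := hle i₀
    rw [h, map_zero] at h1
    exact absurd h1 (not_le.2 (FinitePlace.pos_iff.2 hi₀))
  have hjE : algebraMap κ E (t j) ≠ 0 := by rwa [Ne, map_eq_zero]
  rw [← hj]
  have h1 := log_norm v hjE S (fun w hw => hS w hw j hj0)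
  rw [Algebra.norm_algebraMap, map_pow, Real.log_pow] at h1
  rw [h1]
  refine Finset.sum_congr rfl fun w _ => ?_
  split_ifs with h
  · congr 1
    refine le_antisymm (ciSup_le fun i => below_le w ?_)
      (le_ciSup (f := fun i => w (algebraMap κ E (t i))) (Set.finite_range _).bddAbove j)
    rw [h]
    exact hle i
  · rfl

open scoped Classical in
/-- the norms of the values of the forms at a point -/
theorem point {M q : ℕ} {d : Fin q → ℕ} (P : Finset ℕ) (t : Idx M d → κ)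
    (x : Fin (M + 1) → E) (hx : ∀ b, fv t x b ≠ 0) :
    ∃ (Λ : Fin q → FinitePlace κ → ℝ) (Ξ : FinitePlace κ → ℝ), (∀ b v, 0 ≤ Λ b v) ∧
      (∀ b v, Real.log (v (Algebra.norm κ (fv t x b))) =
        finrank κ E * Real.log (⨆ β : Mon M (d b), v (t ⟨b, β⟩)) + d b * Ξ v - Λ b v) ∧
      ∀ b, ∀ V : Finset (FinitePlace κ), (∀ v ∈ V, ∀ p ∈ P, v (p : κ) = 1) →
        ∑ v ∈ V, Λ b v ≤ cntP P (fun β => algebraMap κ E (t ⟨b, β⟩)) x := by
  -- a finite set of places
  have hfin : ({w : FinitePlace E | ∃ b, w (fv t x b) ≠ 1} ∪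
      ({w : FinitePlace E | ∃ s, t s ≠ 0 ∧ w (algebraMap κ E (t s)) ≠ 1} ∪
        {w : FinitePlace E | ∃ a, x a ≠ 0 ∧ w (x a) ≠ 1})).Finite := by
    refine Set.Finite.union ?_ (Set.Finite.union ?_ ?_)
    · have h1 : {w : FinitePlace E | ∃ b, w (fv t x b) ≠ 1} =
          ⋃ b, {w : FinitePlace E | w (fv t x b) ≠ 1} := by
        ext w
        simp
      rw [h1]
      refine Set.finite_iUnion fun b => ?_
      refine (fin_supp (fv t x b)).subset fun w hw => ⟨hx b, hw⟩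
    · have h1 : {w : FinitePlace E | ∃ s, t s ≠ 0 ∧ w (algebraMap κ E (t s)) ≠ 1} =
          ⋃ s, {w : FinitePlace E | t s ≠ 0 ∧ w (algebraMap κ E (t s)) ≠ 1} := by
        ext w
        simp
      rw [h1]
      refine Set.finite_iUnion fun s => ?_
      refine (fin_supp (algebraMap κ E (t s))).subset ?_
      rintro w ⟨h2, h3⟩
      exact ⟨by rwa [Ne, map_eq_zero], h3⟩
    · have h1 : {w : FinitePlace E | ∃ a, x a ≠ 0 ∧ w (x a) ≠ 1} =
          ⋃ a, {w : FinitePlace E | x a ≠ 0 ∧ w (x a) ≠ 1} := by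
        ext w
        simp
      rw [h1]
      exact Set.finite_iUnion fun a => fin_supp (x a)
  obtain ⟨S, hSdef⟩ : ∃ S : Finset (FinitePlace E), S = hfin.toFinset := ⟨_, rfl⟩
  have hS : ∀ w ∉ S, (∀ b, w (fv t x b) = 1) ∧
      (∀ s, t s ≠ 0 → w (algebraMap κ E (t s)) = 1) ∧ ∀ a, x a ≠ 0 → w (x a) = 1 := by
    intro w hw
    rw [hSdef, Set.Finite.mem_toFinset] at hw
    refine ⟨fun b => ?_, fun s hs => ?_, fun a ha => ?_⟩
    · by_contra h
      exact hw (Or.inl ⟨b, h⟩)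
    · by_contra h
      exact hw (Or.inr (Or.inl ⟨s, hs, h⟩))
    · by_contra h
      exact hw (Or.inr (Or.inr ⟨a, ha, h⟩))
  -- the local terms
  obtain ⟨c, hc⟩ : ∃ c : (b : Fin q) → Mon M (d b) → E, c = fun b β => algebraMap κ E (t ⟨b, β⟩) :=
    ⟨_, rfl⟩
  have hF : ∀ b, F (c b) x = fv t x b := fun b => by
    rw [hc]
    rfl
  have hF0 : ∀ b, F (c b) x ≠ 0 := fun b => by
    rw [hF]
    exact hx b
  have hnn : ∀ b w, 0 ≤ nn (c b) x w := fun b w => nn_nonneg (c b) x w (hF0 b)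
  have hnn0 : ∀ b, ∀ w ∉ S, nn (c b) x w = 0 := by
    intro b w hw
    obtain ⟨h1, h2, h3⟩ := hS w hw
    refine nn_zero (c b) x w (hF0 b) (fun β hβ => ?_) h3 (by rw [hF]; exact h1 b)
    rw [hc] at hβ ⊢
    have h4 : t ⟨b, β⟩ ≠ 0 := by
      intro h
      apply hβ
      simp [h]
    exact h2 _ h4
  have htb : ∀ b, ∃ β : Mon M (d b), t ⟨b, β⟩ ≠ 0 := by
    intro b
    by_contra hcon
    push Not at hcon
    apply hx b
    unfold fv
    refine Finset.sum_eq_zero fun β _ => ?_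
    rw [hcon β, map_zero, zero_mul]
  refine ⟨fun b v => ∑ w ∈ S, if below κ w = v then nn (c b) x w else 0,
    fun v => ∑ w ∈ S, if below κ w = v then Real.log (⨆ a, w (x a)) else 0, ?_, ?_, ?_⟩
  · intro b v
    refine Finset.sum_nonneg fun w _ => ?_
    split_ifs
    · exact hnn b w
    · exact le_rfl
  · intro b v
    rw [log_norm v (hx b) S fun w hw => (hS w hw).1 b, ← sum_sup (E := E)
      (fun β : Mon M (d b) => t ⟨b, β⟩) (htb b) v S
      (fun w hw β hβ => (hS w hw).2.1 _ hβ), Finset.mul_sum, ← Finset.sum_add_distrib,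
      ← Finset.sum_sub_distrib]
    refine Finset.sum_congr rfl fun w _ => ?_
    split_ifs
    · have h1 := nn_eq (c b) x w (hF0 b)
      rw [hF] at h1
      rw [h1, hc]
      ring
    · ring
  · intro b V hV
    have h1 : ∑ v ∈ V, ∑ w ∈ S, (if below κ w = v then nn (c b) x w else 0) =
        ∑ w ∈ S, if below κ w ∈ V then nn (c b) x w else 0 := by
      rw [Finset.sum_comm]
      refine Finset.sum_congr rfl fun w _ => ?_
      rw [Finset.sum_ite_eq]
    rw [h1]
    have h2 : cntP P (fun β => algebraMap κ E (t ⟨b, β⟩)) x =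
        ∑ w ∈ S.filter (fun w => ∀ p ∈ P, w (p : E) = 1), nn (c b) x w := by
      have h3 : cntP P (fun β => algebraMap κ E (t ⟨b, β⟩)) x =
          ∑ᶠ w : {w : FinitePlace E // ∀ p ∈ P, w (p : E) = 1}, nn (c b) x w.1 := by
        rw [hc]
        rfl
      rw [h3]
      have h4 : ∑ᶠ w : {w : FinitePlace E // ∀ p ∈ P, w (p : E) = 1}, nn (c b) x w.1 =
          ∑ᶠ w ∈ {w : FinitePlace E | ∀ p ∈ P, w (p : E) = 1}, nn (c b) x w :=
        finsum_set_coe_eq_finsum_mem (f := fun w : FinitePlace E => nn (c b) x w)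
          {w : FinitePlace E | ∀ p ∈ P, w (p : E) = 1}
      rw [h4]
      refine finsum_mem_eq_sum_of_inter_support_eq _ ?_
      ext w
      simp only [Set.mem_inter_iff, Function.mem_support, Finset.coe_filter, Set.mem_ofPred_eq]
      constructor
      · rintro ⟨h5, h6⟩
        refine ⟨⟨?_, h5⟩, h6⟩
        by_contra h7
        exact h6 (hnn0 b w h7)
      · rintro ⟨⟨-, h5⟩, h6⟩
        exact ⟨h5, h6⟩
    rw [h2, Finset.sum_filter]
    refine Finset.sum_le_sum fun w _ => ?_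
    by_cases h5 : below κ w ∈ V
    · rw [if_pos h5, if_pos (below_off w (hV _ h5))]
    · rw [if_neg h5]
      split_ifs
      · exact hnn b w
      · exact le_rfl

/-- the quotients of the norms at two points of the same degree are in a fixed finitely generated
group -/
theorem near_exact (κ : Type) [Field κ] [NumberField κ] (P : Finset ℕ) (hP : ∀ p ∈ P, p ≠ 0)
    {M q : ℕ} (d : Fin q → ℕ) (B : ℝ) :
    ∃ Γ : Subgroup κˣ, Γ.FG ∧ ∀ (E E₀ : Type) [Field E] [NumberField E] [Algebra κ E]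
      [Field E₀] [NumberField E₀] [Algebra κ E₀], finrank κ E = finrank κ E₀ →
      ∀ (t : Idx M d → κ) (x : Fin (M + 1) → E) (x₀ : Fin (M + 1) → E₀),
      (∀ b, fv t x b ≠ 0) → (∀ b, fv t x₀ b ≠ 0) →
      (∀ b, cntP P (fun β => algebraMap κ E (t ⟨b, β⟩)) x ≤ B) →
      (∀ b, cntP P (fun β => algebraMap κ E₀ (t ⟨b, β⟩)) x₀ ≤ B) →
      ∀ b₀ b, ∃ γ ∈ Γ, (Algebra.norm κ (fv t x b) / Algebra.norm κ (fv t x₀ b)) ^ d b₀ /
        (Algebra.norm κ (fv t x b₀) / Algebra.norm κ (fv t x₀ b₀)) ^ d b = ((γ : κˣ) : κ) := by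
  classical
  obtain ⟨Γ, A, hΓ, hA, h⟩ := sup κ P hP
  set D : ℝ := ∑ b, (d b : ℝ) with hD
  have hD0 : 0 ≤ D := Finset.sum_nonneg fun b _ => Nat.cast_nonneg _
  have hdD : ∀ b, (d b : ℝ) ≤ D := fun b =>
    Finset.single_le_sum (f := fun b => (d b : ℝ)) (fun b _ => Nat.cast_nonneg _)
      (Finset.mem_univ b)
  obtain ⟨C, hC⟩ : ∃ C : ℝ, C = A * (1 + 4 * D * |B|) := ⟨_, rfl⟩
  have hT : {a : κˣ | logHeight₁ (a : κ) ≤ C}.Finite := by
    have h1 : {a : κ | logHeight₁ a ≤ C}.Finite :=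
      Northcott.finite_le (h := fun x : κ => logHeight₁ x) C
    exact h1.preimage (fun u _ v _ h => Units.ext h)
  refine ⟨Γ ⊔ Subgroup.closure (hT.toFinset : Set κˣ), hΓ.sup ⟨hT.toFinset, rfl⟩, ?_⟩
  intro E E₀ _ _ _ _ _ _ hdeg t x x₀ hx hx₀ hB hB₀ b₀ b
  obtain ⟨Λ, Ξ, h1, h2, h3⟩ := point P t x hx
  obtain ⟨Λ', Ξ', h1', h2', h3'⟩ := point P t x₀ hx₀
  have hn : ∀ b, Algebra.norm κ (fv t x b) ≠ 0 := fun b => (Algebra.norm_ne_zero_iff).2 (hx b)
  have hn' : ∀ b, Algebra.norm κ (fv t x₀ b) ≠ 0 := fun b => (Algebra.norm_ne_zero_iff).2 (hx₀ b)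
  obtain ⟨g, hg⟩ : ∃ g : κ, g = (Algebra.norm κ (fv t x b) / Algebra.norm κ (fv t x₀ b)) ^ d b₀ /
        (Algebra.norm κ (fv t x b₀) / Algebra.norm κ (fv t x₀ b₀)) ^ d b := ⟨_, rfl⟩
  have hg0 : g ≠ 0 := by
    rw [hg]
    exact div_ne_zero (pow_ne_zero _ (div_ne_zero (hn b) (hn' b)))
      (pow_ne_zero _ (div_ne_zero (hn b₀) (hn' b₀)))
  have hlog : ∀ v : FinitePlace κ, |Real.log (v g)| ≤
      d b₀ * (Λ b v + Λ' b v) + d b * (Λ b₀ v + Λ' b₀ v) := by
    intro v
    have e1 : ∀ b, v (Algebra.norm κ (fv t x b)) ≠ 0 := fun b => (FinitePlace.pos_iff.2 (hn b)).ne'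
    have e2 : ∀ b, v (Algebra.norm κ (fv t x₀ b)) ≠ 0 := fun b =>
      (FinitePlace.pos_iff.2 (hn' b)).ne'
    have e3 : Real.log (v g) = d b₀ * (Λ' b v - Λ b v) - d b * (Λ' b₀ v - Λ b₀ v) := by
      rw [hg, map_div₀, map_pow, map_pow, map_div₀, map_div₀,
        Real.log_div (pow_ne_zero _ (div_ne_zero (e1 b) (e2 b)))
          (pow_ne_zero _ (div_ne_zero (e1 b₀) (e2 b₀))), Real.log_pow, Real.log_pow,
        Real.log_div (e1 b) (e2 b), Real.log_div (e1 b₀) (e2 b₀), h2, h2, h2', h2', hdeg]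
      ring
    rw [e3, abs_le]
    have e4 := mul_nonneg (Nat.cast_nonneg (d b₀) : (0 : ℝ) ≤ d b₀) (h1 b v)
    have e5 := mul_nonneg (Nat.cast_nonneg (d b₀) : (0 : ℝ) ≤ d b₀) (h1' b v)
    have e6 := mul_nonneg (Nat.cast_nonneg (d b) : (0 : ℝ) ≤ d b) (h1 b₀ v)
    have e7 := mul_nonneg (Nat.cast_nonneg (d b) : (0 : ℝ) ≤ d b) (h1' b₀ v)
    constructor <;> nlinarith
  obtain ⟨γ, hγ, hle⟩ := h (Units.mk0 g hg0)
  have hsum : ∑ᶠ v : Off P κ, |Real.log (v.1 g)| ≤ 4 * D * |B| := by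
    have hfs : {v : FinitePlace κ | g ≠ 0 ∧ v g ≠ 1}.Finite := fin_supp g
    have e1 : ∑ᶠ v : Off P κ, |Real.log (v.1 g)| =
        ∑ v ∈ hfs.toFinset.filter (fun v => ∀ p ∈ P, v (p : κ) = 1), |Real.log (v g)| := by
      have e2 : ∑ᶠ v : Off P κ, |Real.log (v.1 g)| =
          ∑ᶠ v ∈ {v : FinitePlace κ | ∀ p ∈ P, v (p : κ) = 1}, |Real.log (v g)| :=
        finsum_set_coe_eq_finsum_mem (f := fun v : FinitePlace κ => |Real.log (v g)|)
          {v : FinitePlace κ | ∀ p ∈ P, v (p : κ) = 1}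
      rw [e2]
      refine finsum_mem_eq_sum_of_inter_support_eq _ ?_
      ext v
      simp only [Set.mem_inter_iff, Function.mem_support, Finset.coe_filter, Set.mem_ofPred_eq,
        Set.Finite.mem_toFinset]
      constructor
      · rintro ⟨h5, h6⟩
        refine ⟨⟨⟨hg0, fun h7 => h6 ?_⟩, h5⟩, h6⟩
        rw [h7, Real.log_one, abs_zero]
      · rintro ⟨⟨-, h5⟩, h6⟩
        exact ⟨h5, h6⟩
    rw [e1]
    obtain ⟨W, hW⟩ : ∃ W : Finset (FinitePlace κ),
      W = hfs.toFinset.filter (fun v => ∀ p ∈ P, v (p : κ) = 1) := ⟨_, rfl⟩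
    have hWP : ∀ v ∈ W, ∀ p ∈ P, v (p : κ) = 1 := fun v hv => by
      rw [hW] at hv
      exact (Finset.mem_filter.1 hv).2
    rw [← hW]
    have e3 := Finset.sum_le_sum fun v (_ : v ∈ W) => hlog v
    refine e3.trans ?_
    rw [Finset.sum_add_distrib, ← Finset.mul_sum, ← Finset.mul_sum, Finset.sum_add_distrib,
      Finset.sum_add_distrib]
    have f1 := (h3 b W hWP).trans ((hB b).trans (le_abs_self B))
    have f2 := (h3' b W hWP).trans ((hB₀ b).trans (le_abs_self B))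
    have f3 := (h3 b₀ W hWP).trans ((hB b₀).trans (le_abs_self B))
    have f4 := (h3' b₀ W hWP).trans ((hB₀ b₀).trans (le_abs_self B))
    have g1 : (d b₀ : ℝ) * (∑ v ∈ W, Λ b v + ∑ v ∈ W, Λ' b v) ≤ D * (|B| + |B|) :=
      mul_le_mul (hdD b₀) (add_le_add f1 f2) (add_nonneg (Finset.sum_nonneg fun v _ => h1 b v)
        (Finset.sum_nonneg fun v _ => h1' b v)) hD0
    have g2 : (d b : ℝ) * (∑ v ∈ W, Λ b₀ v + ∑ v ∈ W, Λ' b₀ v) ≤ D * (|B| + |B|) :=
      mul_le_mul (hdD b) (add_le_add f3 f4) (add_nonneg (Finset.sum_nonneg fun v _ => h1 b₀ v)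
        (Finset.sum_nonneg fun v _ => h1' b₀ v)) hD0
    linarith
  simp only [Units.val_mk0] at hle
  have hle' : logHeight₁ (g / ((γ : κˣ) : κ)) ≤ C := by
    refine hle.trans ?_
    rw [hC]
    exact mul_le_mul_of_nonneg_left (by linarith [hsum]) hA
  refine ⟨Units.mk0 g hg0, ?_, by rw [Units.val_mk0, hg]⟩
  have hdiv : (Units.mk0 g hg0) = γ * ((Units.mk0 g hg0) / γ) := by
    rw [mul_div_cancel]
  rw [hdiv]
  refine Subgroup.mul_mem _ (Subgroup.mem_sup_left hγ) (Subgroup.mem_sup_right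
    (Subgroup.subset_closure ?_))
  rw [Set.Finite.coe_toFinset]
  change logHeight₁ (((Units.mk0 g hg0 / γ : κˣ)) : κ) ≤ C
  rw [Units.val_div_eq_div_val, Units.val_mk0]
  exact hle'

end Run7.h789.UN
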