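import Pool.Agent.Run7.h789.UN.Unif
import Pool.Agent.Run7.h789.UN.Loc

/-!
# Uniform bounds for integral points, part 6: points of bounded degree over number fields
-/

set_option autoImplicit false

namespace Run7.h789.UN

open MvPolynomial Module Filter NumberField
open Pool.Agent.NH29.GN (Idx Mon fv val NoZero der alg rel lin prj)
open Pool.Agent.NH29.GN.Ncz (fv_smul aeval_smul)
open Pool.Agent.NH29.GH (PtD cntP fv_hom fv_scaleE)
open Pool.Agent.NH8.GD (qn pv)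
open scoped LinearAlgebra.Projectivization

/-- a criterion in terms of arbitrary coordinates -/
theorem tupD_mk {k K : Type} [Field k] [Field K] [Algebra k K] {M q δ : ℕ}
    {V : Set (MvPolynomial (Fin (M + 1)) k)} (hV : ∀ H ∈ V, ∃ e, H.IsHomogeneous e)
    {d : Fin q → ℕ} (t : Idx M d → K) (Γ : Subgroup Kˣ) (y : Fin δ → Fin (M + 1) → K)
    (hy : ∀ l, y l ≠ 0) (h1 : ∀ l, ∀ H ∈ V, aeval (y l) H = 0) (h2 : ∀ l b, fv t (y l) b ≠ 0)
    (h3 : ∀ b₀ b, ∃ γ ∈ Γ, qn t y b₀ b = ((γ : Kˣ) : K)) :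
    TupD V t Γ (fun l => Projectivization.mk K (y l) (hy l)) := by
  choose c hc using fun l => Projectivization.exists_smul_eq_mk_rep K (y l) (hy l)
  have hr : ∀ l, (Projectivization.mk K (y l) (hy l)).rep = fun i => (c l : K) * y l i := by
    intro l
    rw [← hc l]
    rfl
  refine ⟨fun l H hH => ?_, fun l b => ?_, fun b₀ b => ?_⟩
  · obtain ⟨e, he⟩ := hV H hH
    rw [hr, aeval_smul he, h1 l H hH, mul_zero]
  · rw [hr, fv_smul]
    exact mul_ne_zero (pow_ne_zero _ (c l).ne_zero) (h2 l b)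
  · obtain ⟨γ, hγ, h4⟩ := h3 b₀ b
    refine ⟨γ, hγ, ?_⟩
    rw [← h4]
    have h5 : ∀ b, pv t (fun l => (Projectivization.mk K (y l) (hy l)).rep) b =
        (∏ l, (c l : K)) ^ d b * pv t y b := by
      intro b
      unfold pv
      rw [← Finset.prod_pow, ← Finset.prod_mul_distrib]
      refine Finset.prod_congr rfl fun l _ => ?_
      change fv t (Projectivization.mk K (y l) (hy l)).rep b = _
      rw [hr, fv_smul]
    have h6 : (∏ l, (c l : K)) ≠ 0 := Finset.prod_ne_zero_iff.2 fun l _ => (c l).ne_zero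
    unfold qn
    rw [h5, h5, mul_pow, mul_pow, ← pow_mul, ← pow_mul, mul_comm (d b₀) (d b),
      mul_div_mul_left _ _ (pow_ne_zero _ h6)]

/-- the points of degree `m` over `κ`, on `V` and off the divisor, with bounded counting
functions -/
def PtSet {k : Type} [Field k] {M q : ℕ} (V : Set (MvPolynomial (Fin (M + 1)) k))
    {d : Fin q → ℕ} (κ : Type) [Field κ] [NumberField κ] [Algebra k κ] (P : Finset ℕ) (B : ℝ)
    (t : Idx M d → κ) (m : ℕ) :
    Set (ℙ (AlgebraicClosure κ) (Fin (M + 1) → AlgebraicClosure κ)) :=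
  {p | ∃ (E : IntermediateField κ (AlgebraicClosure κ)) (_ : NumberField E) (x : Fin (M + 1) → E)
    (hx : (fun a => (x a : AlgebraicClosure κ)) ≠ 0),
    finrank κ E = m ∧ p = Projectivization.mk _ _ hx ∧ PtD V t x ∧
    ∀ b, cntP P (fun β => algebraMap κ E (t ⟨b, β⟩)) x ≤ B}

/-- the tuple of the conjugates -/
theorem tup {k κ K E : Type} [Field k] [Field κ] [NumberField κ] [Algebra k κ] [Field K]
    [IsAlgClosed K] [Algebra κ K] [Algebra k K] [IsScalarTower k κ K] [Field E] [NumberField E]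
    [Algebra κ E] {M q m : ℕ} {V : Set (MvPolynomial (Fin (M + 1)) k)}
    (hV : ∀ H ∈ V, ∃ e, H.IsHomogeneous e) {d : Fin q → ℕ} (t : Idx M d → κ)
    (x : Fin (M + 1) → E) (hx : PtD V t x) (hm : finrank κ E = m) (hm1 : 0 < m) (σ : E →ₐ[κ] K)
    (e : Fin q → K) (he : ∀ b, e b ≠ 0) (Γ : Subgroup Kˣ)
    (hΓ : ∀ b₀ b, ∃ γ ∈ Γ, (e b ^ m * algebraMap κ K (Algebra.norm κ (fv t x b))) ^ d b₀ /
      (e b₀ ^ m * algebraMap κ K (Algebra.norm κ (fv t x b₀))) ^ d b = ((γ : Kˣ) : K)) :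
    ∃ (hy : (fun a => σ (x a)) ≠ 0) (T : Fin m → ℙ K (Fin (M + 1) → K)),
      T ⟨0, hm1⟩ = Projectivization.mk K _ hy ∧
      TupD V (fun s : Idx M d => e s.1 * algebraMap κ K (t s)) Γ T := by
  classical
  have hfin : FiniteDimensional κ E := by
    refine FiniteDimensional.of_finrank_pos ?_
    omega
  have hcard : Fintype.card (E →ₐ[κ] K) = m := by
    rw [AlgHom.card κ E K, hm]
  obtain ⟨ε, hε⟩ : ∃ ε : Fin m ≃ (E →ₐ[κ] K), ε ⟨0, hm1⟩ = σ := by
    have e0 : Fin m ≃ (E →ₐ[κ] K) := (Fintype.equivFinOfCardEq hcard).symm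
    exact ⟨e0.trans (Equiv.swap (e0 ⟨0, hm1⟩) σ), by simp⟩
  have hne : ∀ τ : E →ₐ[κ] K, (fun a => τ (x a)) ≠ 0 := by
    intro τ h0
    apply hx.ne
    funext a
    have h1 : τ (x a) = 0 := congrFun h0 a
    rw [map_eq_zero] at h1
    exact h1
  have hfv : ∀ (τ : E →ₐ[κ] K) b,
      fv (K := K) (L := K) (fun s : Idx M d => e s.1 * algebraMap κ K (t s)) (fun a => τ (x a)) b =
        e b * τ (fv t x b) := by
    intro τ b
    rw [← fv_hom τ t x b]
    have := fv_scaleE (κ := K) (E := K) (fun s : Idx M d => algebraMap κ K (t s)) e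
      (fun a => τ (x a)) b
    rw [this]
    rfl
  refine ⟨hne σ, fun l => Projectivization.mk K (fun a => ε l (x a)) (hne (ε l)), ?_, ?_⟩
  · simp only [hε]
  · refine tupD_mk hV _ Γ (fun l a => ε l (x a)) (fun l => hne (ε l)) ?_ ?_ ?_
    · intro l H hH
      have h1 := hx.onV H hH
      have h2 : aeval (fun a => ε l (x a)) H =
          (ε l : E →+* K) (eval₂ ((algebraMap κ E).comp (algebraMap k κ)) x H) := by
        rw [MvPolynomial.hom_eval₂, aeval_def]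
        congr 1
        ext c
        simp only [RingHom.comp_apply, AlgHom.coe_toRingHom, AlgHom.commutes]
        exact IsScalarTower.algebraMap_apply k κ K c
      rw [h2, h1, map_zero]
    · intro l b
      rw [hfv]
      exact mul_ne_zero (he b) (by rw [Ne, map_eq_zero]; exact hx.off b)
    · intro b₀ b
      have h1 : ∀ b, pv (K := K) (L := K) (fun s : Idx M d => e s.1 * algebraMap κ K (t s))
          (fun l a => ε l (x a)) b =
          e b ^ m * algebraMap κ K (Algebra.norm κ (fv t x b)) := by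
        intro b
        unfold pv
        rw [Finset.prod_congr rfl fun l _ => hfv (ε l) b, Finset.prod_mul_distrib,
          Finset.prod_const, Finset.card_univ, Fintype.card_fin,
          Algebra.norm_eq_prod_embeddings κ K,
          ← Equiv.prod_comp ε fun τ : E →ₐ[κ] K => τ (fv t x b)]
      obtain ⟨γ, hγ, h2⟩ := hΓ b₀ b
      refine ⟨γ, hγ, ?_⟩
      unfold qn
      rw [h1, h1, h2]

/-- **The number of points of degree `m`.** -/
theorem nf_deg {k : Type} [Field k] [CharZero k] {M n q m : ℕ}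
    {V : Set (MvPolynomial (Fin (M + 1)) k)} (hV : ∀ H ∈ V, ∃ e, H.IsHomogeneous e)
    {ℓ : Fin (n + 1) → MvPolynomial (Fin (M + 1)) k} (hℓ : ∀ j, (ℓ j).IsHomogeneous 1)
    (hN : NoZero V ℓ) {d : Fin q → ℕ} (hd : ∀ i, 1 ≤ d i) (hm : 1 ≤ m) (hq : n * m + 2 ≤ q)
    (hnum : ∀ b, m * (q - 1) < (q - n * m - 1) * (d b + 2 - m)) :
    ∃ Φ : MvPolynomial (Idx M d) k, Φ ≠ 0 ∧
      ∀ (κ : Type) [Field κ] [NumberField κ] [Algebra k κ] (P : Finset ℕ), (∀ p ∈ P, p ≠ 0) →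
      ∀ B : ℝ, ∃ N : ℕ, ∀ t : Idx M d → κ, aeval t Φ ≠ 0 → (PtSet V κ P B t m).encard ≤ N := by
  classical
  obtain ⟨Φ₀, hΦ₀, hu⟩ := unif_one (δ := m) hV hℓ hN hd hq hnum
  obtain ⟨Φ, D, hΦ, hprj⟩ := prj k M q d Φ₀ hΦ₀
  refine ⟨Φ, hΦ, fun κ _ _ _ P hP B => ?_⟩
  obtain ⟨Γ, hΓ, hnear⟩ := near_exact κ P hP d B
  have hl0 : ∀ l : ℕ, 1 ≤ l → (l : AlgebraicClosure κ) ≠ 0 := fun l hl => by
    exact_mod_cast (by omega : l ≠ 0)
  obtain ⟨Γ', hΓ'⟩ : ∃ Γ' : Subgroup (AlgebraicClosure κ)ˣ, Γ' =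
      Γ.map (Units.map (algebraMap κ (AlgebraicClosure κ) : κ →* AlgebraicClosure κ)) ⊔
      Subgroup.closure (Set.range fun l : Fin D =>
        Units.mk0 (((l : ℕ) + 1 : ℕ) : AlgebraicClosure κ) (hl0 _ (by omega))) := ⟨_, rfl⟩
  have hΓfg : Γ'.FG := by
    rw [hΓ']
    refine Subgroup.FG.sup ?_ ?_
    · obtain ⟨S, hS⟩ := hΓ
      refine (Subgroup.fg_iff _).2 ⟨_, ?_, (S.finite_toSet.image
        (Units.map (algebraMap κ (AlgebraicClosure κ) : κ →* AlgebraicClosure κ)))⟩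
      rw [← MonoidHom.map_closure, hS]
    · exact (Subgroup.fg_iff _).2 ⟨_, rfl, Set.finite_range _⟩
  have hlΓ : ∀ l : ℕ, ∀ (h1 : 1 ≤ l), l ≤ D →
      Units.mk0 (l : AlgebraicClosure κ) (hl0 l h1) ∈ Γ' := by
    intro l h1 h2
    rw [hΓ']
    refine Subgroup.mem_sup_right (Subgroup.subset_closure ⟨⟨l - 1, by omega⟩, ?_⟩)
    ext
    have h3 : l - 1 + 1 = l := by omega
    simp only [Units.val_mk0, h3]
  obtain ⟨N, hNu⟩ := hu (AlgebraicClosure κ) Γ' hΓfg
  refine ⟨N, fun t ht => ?_⟩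
  by_contra hcon
  push Not at hcon
  obtain ⟨S, hS1, hS2⟩ := Set.exists_subset_encard_eq hcon.le
  have hSf : S.Finite := Set.finite_of_encard_eq_coe hS2
  have hcard : hSf.toFinset.card = N := by
    rw [hSf.encard_eq_coe_toFinset_card] at hS2
    exact_mod_cast hS2
  let ee : Fin N ≃ hSf.toFinset := (Fin.castOrderIso hcard.symm).toEquiv.trans
    hSf.toFinset.equivFin.symm
  -- the reference point
  obtain ⟨p₀, E₀, hE₀, x₀, -, hm₀, -, hx₀, hB₀⟩ : (PtSet V κ P B t m).Nonempty := by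
    rw [← Set.encard_pos]
    exact zero_le.trans_lt hcon
  have hn₀ : ∀ b, algebraMap κ (AlgebraicClosure κ) (Algebra.norm κ (fv t x₀ b)) ≠ 0 := by
    intro b
    rw [Ne, map_eq_zero]
    exact (Algebra.norm_ne_zero_iff).2 (hx₀.off b)
  choose μ hμ using fun b => IsAlgClosed.exists_pow_nat_eq
    (algebraMap κ (AlgebraicClosure κ) (Algebra.norm κ (fv t x₀ b)))⁻¹ hm
  have hμ0 : ∀ b, μ b ≠ 0 := by
    intro b h0
    have h1 := hμ b
    rw [h0, zero_pow (by omega)] at h1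
    exact inv_ne_zero (hn₀ b) h1.symm
  have ht' : aeval (fun s => algebraMap κ (AlgebraicClosure κ) (t s)) Φ ≠ 0 := by
    have h1 : aeval (fun s => algebraMap κ (AlgebraicClosure κ) (t s)) Φ =
        algebraMap κ (AlgebraicClosure κ) (aeval t Φ) :=
      MvPolynomial.aeval_algebraMap_apply (AlgebraicClosure κ) t Φ
    rw [h1, Ne, map_eq_zero]
    exact ht
  obtain ⟨l, hl, hl1⟩ := (hprj (AlgebraicClosure κ) _ ht').2 μ hμ0
  have hsc : ∀ b, (l b : AlgebraicClosure κ) * μ b ≠ 0 := fun b =>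
    mul_ne_zero (hl0 _ (hl b).1) (hμ0 b)
  have hT : ∀ j : Fin N, ∃ T : Fin m → ℙ (AlgebraicClosure κ)
      (Fin (M + 1) → AlgebraicClosure κ), T ⟨0, hm⟩ = (ee j : ℙ (AlgebraicClosure κ) _) ∧
      TupD V (fun s : Idx M d => ((l s.1 : AlgebraicClosure κ) * μ s.1) *
        algebraMap κ (AlgebraicClosure κ) (t s)) Γ' T := by
    intro j
    obtain ⟨E, hE, x, hx, hmE, hp, hxP, hB⟩ := hS1 ((Set.Finite.mem_toFinset hSf).1 (ee j).2)
    obtain ⟨hy, T, hT1, hT2⟩ := tup hV t x hxP hmE hm E.val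
      (fun b => (l b : AlgebraicClosure κ) * μ b) hsc Γ' (by
        intro b₀ b
        obtain ⟨γ, hγ, h1⟩ := hnear E E₀ (hmE.trans hm₀.symm) t x x₀ hxP.off hx₀.off hB hB₀ b₀ b
        refine ⟨((Units.mk0 _ (hl0 _ (hl b).1)) ^ m) ^ d b₀ /
          ((Units.mk0 _ (hl0 _ (hl b₀).1)) ^ m) ^ d b *
          Units.map (algebraMap κ (AlgebraicClosure κ) : κ →* AlgebraicClosure κ) γ, ?_, ?_⟩
        · refine Subgroup.mul_mem _ (Subgroup.div_mem _ ?_ ?_) ?_
          · exact Subgroup.pow_mem _ (Subgroup.pow_mem _ (hlΓ _ (hl b).1 (hl b).2) _) _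
          · exact Subgroup.pow_mem _ (Subgroup.pow_mem _ (hlΓ _ (hl b₀).1 (hl b₀).2) _) _
          · rw [hΓ']
            exact Subgroup.mem_sup_left ⟨γ, hγ, rfl⟩
        · have h2 : algebraMap κ (AlgebraicClosure κ) ((γ : κˣ) : κ) =
              ((μ b) ^ m * algebraMap κ (AlgebraicClosure κ) (Algebra.norm κ (fv t x b))) ^ d b₀ /
              ((μ b₀) ^ m * algebraMap κ (AlgebraicClosure κ)
                (Algebra.norm κ (fv t x b₀))) ^ d b := by
            rw [← h1, hμ, hμ]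
            simp only [map_div₀, map_pow]
            congr 1 <;> congr 1 <;> exact div_eq_inv_mul _ _
          push_cast
          rw [Units.coe_map, MonoidHom.coe_coe, h2]
          simp only [Units.val_mk0]
          have e1 : ((l b : AlgebraicClosure κ) ^ m) ^ d b₀ ≠ 0 :=
            pow_ne_zero _ (pow_ne_zero _ (hl0 _ (hl b).1))
          have e2 : ((l b₀ : AlgebraicClosure κ) ^ m) ^ d b ≠ 0 :=
            pow_ne_zero _ (pow_ne_zero _ (hl0 _ (hl b₀).1))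
          rw [mul_pow (l b : AlgebraicClosure κ), mul_pow (l b₀ : AlgebraicClosure κ), mul_assoc,
            mul_assoc, mul_pow ((l b : AlgebraicClosure κ) ^ m),
            mul_pow ((l b₀ : AlgebraicClosure κ) ^ m), mul_div_mul_comm])
    refine ⟨T, ?_, hT2⟩
    rw [hT1, hp]
    rfl
  choose T hT1 hT2 using hT
  refine hNu (fun s => ((l s.1 : AlgebraicClosure κ) * μ s.1) *
        algebraMap κ (AlgebraicClosure κ) (t s)) hl1 T ?_ hT2
  intro i j hij
  have h1 : (ee i : ℙ (AlgebraicClosure κ) (Fin (M + 1) → AlgebraicClosure κ)) = ee j := by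
    rw [← hT1, ← hT1, hij]
  exact ee.injective (Subtype.ext h1)

/-- **The number of points of degree at most `r`.** -/
theorem nf {k : Type} [Field k] [CharZero k] {M n q r : ℕ}
    {V : Set (MvPolynomial (Fin (M + 1)) k)} (hV : ∀ H ∈ V, ∃ e, H.IsHomogeneous e)
    {ℓ : Fin (n + 1) → MvPolynomial (Fin (M + 1)) k} (hℓ : ∀ j, (ℓ j).IsHomogeneous 1)
    (hN : NoZero V ℓ) {d : Fin q → ℕ} (hd : ∀ i, 1 ≤ d i) (hq : n * r + 2 ≤ q)
    (hnum : ∀ b, r * (q - 1) < (q - n * r - 1) * (d b + 2 - r)) :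
    ∃ Φ : MvPolynomial (Idx M d) k, Φ ≠ 0 ∧
      ∀ (κ : Type) [Field κ] [NumberField κ] [Algebra k κ] (P : Finset ℕ), (∀ p ∈ P, p ≠ 0) →
      ∀ B : ℝ, ∃ N : ℕ, ∀ t : Idx M d → κ, aeval t Φ ≠ 0 →
        (⋃ m ∈ Finset.Icc 1 r, PtSet V κ P B t m).encard ≤ N := by
  classical
  have hone : ∀ m : ℕ, ∃ Φ : MvPolynomial (Idx M d) k, Φ ≠ 0 ∧ (m ∈ Finset.Icc 1 r →
      ∀ (κ : Type) [Field κ] [NumberField κ] [Algebra k κ] (P : Finset ℕ), (∀ p ∈ P, p ≠ 0) →
      ∀ B : ℝ, ∃ N : ℕ, ∀ t : Idx M d → κ, aeval t Φ ≠ 0 →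
        (PtSet V κ P B t m).encard ≤ N) := by
    intro m
    by_cases hm : m ∈ Finset.Icc 1 r
    · obtain ⟨hm1, hm2⟩ := Finset.mem_Icc.1 hm
      have h1 : n * m ≤ n * r := Nat.mul_le_mul_left n hm2
      obtain ⟨Φ, h2, h3⟩ := nf_deg hV hℓ hN hd hm1 (by omega)
        (fun b => by
          refine (Nat.mul_le_mul_right (q - 1) hm2).trans_lt ((hnum b).trans_le ?_)
          exact Nat.mul_le_mul (by omega) (by omega))
      exact ⟨Φ, h2, fun _ => h3⟩
    · exact ⟨1, one_ne_zero, fun h1 => absurd h1 hm⟩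
  choose Φ hΦ0 hΦ using hone
  refine ⟨∏ m ∈ Finset.Icc 1 r, Φ m, Finset.prod_ne_zero_iff.2 fun m _ => hΦ0 m,
    fun κ _ _ _ P hP B => ?_⟩
  have hex : ∀ m : ℕ, ∃ N : ℕ, m ∈ Finset.Icc 1 r → ∀ t : Idx M d → κ, aeval t (Φ m) ≠ 0 →
      (PtSet V κ P B t m).encard ≤ N := by
    intro m
    by_cases hm : m ∈ Finset.Icc 1 r
    · obtain ⟨N, hN⟩ := hΦ m hm κ P hP B
      exact ⟨N, fun _ => hN⟩
    · exact ⟨0, fun h1 => absurd h1 hm⟩
  choose N hN using hex
  refine ⟨∑ m ∈ Finset.Icc 1 r, N m, fun t ht => ?_⟩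
  rw [map_prod, Finset.prod_ne_zero_iff] at ht
  refine (Finset.set_encard_biUnion_le _ _).trans ?_
  refine (Finset.sum_le_sum fun m hm => hN m hm t (ht m hm)).trans ?_
  push_cast
  exact le_rfl

end Run7.h789.UN
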