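import Pool.Agent.Run7.h789.UN.Ueu
import Pool.Agent.NH8.GD.Stm

/-!
# Uniform bounds for integral points, part 3: limits of tuples of points

If for every `N` there are coefficients with `N` tuples of points with quotients in a fixed finitely
generated group, then there is a bad tuple over an ultrapower of an ultrapower.
-/

set_option autoImplicit false

namespace Run7.h789.UN

open MvPolynomial Module Filter Pool.Agent.NH29.GN Pool.Agent.NH29.GN.STA Pool.Agent.NH8.GD
open scoped LinearAlgebra.Projectivization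

/-- the class of a double sequence -/
noncomputable def mm (K : Type) [Field K] : (ℕ → ℕ → K) →+* UP (UP K) :=
  (mkH (UP K)).comp ((mkH K).compLeft ℕ)

variable {K : Type} [Field K]

theorem mm_apply (f : ℕ → ℕ → K) : mm K f = mkH (UP K) (fun s => mkH K (f s)) := rfl

theorem mm_eq {f g : ℕ → ℕ → K} : mm K f = mm K g ↔
    ∀ᶠ s in ((hyperfilter ℕ : Ultrafilter ℕ) : Filter ℕ),
      ∀ᶠ N in ((hyperfilter ℕ : Ultrafilter ℕ) : Filter ℕ), f s N = g s N := by
  rw [mm_apply, mm_apply, mkH_apply, mkH_apply, mk_eq]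
  exact eventually_congr (Eventually.of_forall fun s => mk_eq _ _)

theorem mm_eq_zero {f : ℕ → ℕ → K} : mm K f = 0 ↔
    ∀ᶠ s in ((hyperfilter ℕ : Ultrafilter ℕ) : Filter ℕ),
      ∀ᶠ N in ((hyperfilter ℕ : Ultrafilter ℕ) : Filter ℕ), f s N = 0 := by
  rw [← map_zero (mm K), mm_eq]
  rfl

theorem mm_alg (g : ℕ → K) : algebraMap (UP K) (UP (UP K)) (mkH K g) = mm K fun _ N => g N := rfl

/-- the product of powers of classes of units -/
theorem mm_prod_zpow {q : ℕ} (w : Fin q → ℕ → ℕ → Kˣ) (m : Fin q → ℤ) :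
    ∏ b, (mm K fun s N => (w b s N : K)) ^ m b =
      mm K fun s N => ((∏ b, w b s N ^ m b : Kˣ) : K) := by
  have h0 : ∀ b s, mkH K (fun N => (w b s N : K)) ≠ 0 := fun b s =>
    mk_ne_zero _ fun N => (w b s N).ne_zero
  let W : Fin q → ℕ → (UP K)ˣ := fun b s => Units.mk0 _ (h0 b s)
  have h1 := mk_prod_zpow (K := UP K) W m
  have h2 : ∀ b, mkH (UP K) (fun s => ((W b s : (UP K)ˣ) : UP K)) =
      mm K fun s N => (w b s N : K) := fun b => rfl
  simp only [h2] at h1
  rw [h1, mm_apply]
  congr 1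
  funext s
  rw [Units.coe_prod, ← mk_prod_zpow (K := K) (fun b N => w b s N) m]
  refine Finset.prod_congr rfl fun b _ => ?_
  rw [Units.val_zpow_eq_zpow_val]
  rfl

/-- the tuples of points of `V` off `F_b = 0` with the quotients of the products in `Γ` -/
def TupD {k : Type} [Field k] [Algebra k K] {M q δ : ℕ} (V : Set (MvPolynomial (Fin (M + 1)) k))
    {d : Fin q → ℕ} (t : Idx M d → K) (Γ : Subgroup Kˣ) (P : Fin δ → ℙ K (Fin (M + 1) → K)) :
    Prop :=
  (∀ l, ∀ H ∈ V, aeval (P l).rep H = 0) ∧ (∀ l b, fv t (P l).rep b ≠ 0) ∧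
    ∀ b₀ b, ∃ γ ∈ Γ, qn t (fun l => (P l).rep) b₀ b = (γ : K)

section lim

variable {M q δ : ℕ} {d : Fin q → ℕ}

theorem mm_val (r : ℕ → ℕ → Fin (M + 1) → K) (β : Fin (M + 1) →₀ ℕ) :
    val (fun i => mm K fun s N => r s N i) β = mm K fun s N => val (r s N) β := by
  have h : (fun s N => val (r s N) β) = ∏ i, (fun s N => r s N i) ^ β i := by
    funext s N
    simp [val, Finset.prod_apply]
  rw [h, map_prod]
  simp [val, map_pow]

theorem mm_fv (t : ℕ → Idx M d → K) (r : ℕ → ℕ → Fin (M + 1) → K) (b : Fin q) :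
    fv (K := UP K) (L := UP (UP K)) (fun i => UP.mk fun N => t N i)
      (fun i => mm K fun s N => r s N i) b = mm K fun s N => fv (t N) (r s N) b := by
  have h : (fun s N => fv (t N) (r s N) b) =
      ∑ β : Mon M (d b), (fun _ N => t N ⟨b, β⟩) * (fun s N => val (r s N) β.1) := by
    funext s N
    simp [fv, Finset.sum_apply]
  rw [h, map_sum]
  simp only [fv, map_mul, mm_val]
  rfl

theorem mm_eval {k : Type} [Field k] [Algebra k K] (r : ℕ → ℕ → Fin (M + 1) → K)
    (H : MvPolynomial (Fin (M + 1)) k) :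
    eval₂ ((algebraMap (UP K) (UP (UP K))).comp
      ((algebraMap K (UP K)).comp (algebraMap k K))) (fun i => mm K fun s N => r s N i) H =
      mm K fun s N => aeval (r s N) H := by
  induction H using MvPolynomial.induction_on with
  | C a =>
    simp only [eval₂_C, algHom_C]
    rfl
  | add f g hf hg =>
    have : (fun s N => aeval (r s N) (f + g)) =
        (fun s N => aeval (r s N) f) + (fun s N => aeval (r s N) g) := by
      funext s N; simp
    rw [this, map_add, eval₂_add, hf, hg]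
  | mul_X f i hf =>
    have : (fun s N => aeval (r s N) (f * X i)) =
        (fun s N => aeval (r s N) f) * (fun s N => r s N i) := by
      funext s N; simp
    rw [this, map_mul, eval₂_mul, hf, eval₂_X]

end lim

/-- **STU**, for tuples -/
theorem stuD {k : Type} [Field k] [Algebra k K] (hUEU : UEU K) {M q δ : ℕ}
    {V : Set (MvPolynomial (Fin (M + 1)) k)} {d : Fin q → ℕ} (t : ℕ → Idx M d → K)
    {Γ : Subgroup Kˣ} (hΓ : Γ.FG)
    (hP : ∀ N : ℕ, ∃ P : Fin N → Fin δ → ℙ K (Fin (M + 1) → K), Function.Injective P ∧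
      ∀ j, TupD V (t N) Γ (P j)) :
    letI : Algebra k (UP K) := ((algebraMap K (UP K)).comp (algebraMap k K)).toAlgebra
    ∃ x : Fin δ → Fin (M + 1) → UP (UP K),
      Pool.Agent.NH8.GD.Bad k (UP K) (UP (UP K)) V (fun i => UP.mk fun N => t N i) x := by
  classical
  let _ : Algebra k (UP K) := ((algebraMap K (UP K)).comp (algebraMap k K)).toAlgebra
  choose P hPi hPT using hP
  obtain ⟨𝒰, h𝒰⟩ : ∃ 𝒰 : Ultrafilter ℕ, 𝒰 = hyperfilter ℕ := ⟨_, rfl⟩
  have hev : ∀ s : ℕ, ∀ᶠ N in (𝒰 : Filter ℕ), s < N := by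
    intro s
    have h1 : ∀ᶠ N : ℕ in (cofinite : Filter ℕ), s < N := by
      rw [Nat.cofinite_eq_atTop]
      exact eventually_gt_atTop s
    rw [h𝒰]
    exact hyperfilter_le_cofinite h1
  -- the representatives
  obtain ⟨r, hr⟩ : ∃ r : Fin δ → ℕ → ℕ → Fin (M + 1) → K, ∀ l s N (h : s < N),
      r l s N = (P N ⟨s, h⟩ l).rep :=
    ⟨fun l s N => if h : s < N then (P N ⟨s, h⟩ l).rep else 0, fun l s N h => dif_pos h⟩
  have hfvr : ∀ l s N (h : s < N) b, fv (t N) (r l s N) b ≠ 0 := fun l s N h b => by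
    rw [hr l s N h]
    exact (hPT N ⟨s, h⟩).2.1 l b
  refine ⟨fun l i => mm K fun s N => r l s N i, ?_, ?_, ?_, ?_, ?_⟩
  · intro l H hH
    change eval₂ ((algebraMap (UP K) (UP (UP K))).comp
      ((algebraMap K (UP K)).comp (algebraMap k K))) (fun i => mm K fun s N => r l s N i) H = 0
    rw [mm_eval, mm_eq_zero, ← h𝒰]
    refine Eventually.of_forall fun s => (hev s).mono fun N h => ?_
    rw [hr l s N h]
    exact (hPT N ⟨s, h⟩).1 l H hH
  · intro l b h0
    rw [mm_fv, mm_eq_zero, ← h𝒰] at h0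
    obtain ⟨s, hs⟩ := h0.exists
    obtain ⟨N, hN, hN'⟩ := (hs.and (hev s)).exists
    exact hfvr l s N hN' b hN
  · intro l h0
    have h1 : ∀ i, ∀ᶠ s in (𝒰 : Filter ℕ), ∀ᶠ N in (𝒰 : Filter ℕ), r l s N i = 0 := by
      intro i
      have := congrFun h0 i
      rw [h𝒰]
      exact mm_eq_zero.1 this
    obtain ⟨s, hs⟩ := (eventually_all.2 h1).exists
    obtain ⟨N, hN, hN'⟩ := ((eventually_all.2 hs).and (hev s)).exists
    rw [hr l s N hN'] at hN
    exact (P N ⟨s, hN'⟩ l).rep_nonzero (funext hN)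
  · intro h0
    choose c y h0 using h0
    have h1 : ∀ l, ∀ᶠ s in (𝒰 : Filter ℕ), ∀ i, mkH K (fun N => r l s N i) =
        (fun s => (mk_surj (c l)).choose s) s * y l i := by
      intro l
      rw [eventually_all]
      intro i
      have h2 : (mm K fun s N => r l s N i) = c l * algebraMap (UP K) (UP (UP K)) (y l i) :=
        congrFun (h0 l) i
      rw [algMap, ← (mk_surj (c l)).choose_spec, ← mkH_apply, ← map_mul, mm_apply, mkH_apply,
        mkH_apply, mk_eq] at h2
      rw [h𝒰]
      exact h2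
    have h3 : {s | ∀ l i, mkH K (fun N => r l s N i) =
        (mk_surj (c l)).choose s * y l i}.Infinite := by
      intro hfin
      have h4 : ∀ᶠ s in (𝒰 : Filter ℕ), ∀ l i, mkH K (fun N => r l s N i) =
        (mk_surj (c l)).choose s * y l i := eventually_all.2 h1
      rw [h𝒰] at h4
      exact (notMem_hyperfilter_of_finite hfin) h4
    obtain ⟨s₁, hs₁, s₂, hs₂, hne⟩ := h3.nontrivial
    have hs₁' : ∀ l i, mkH K (fun N => r l s₁ N i) = (mk_surj (c l)).choose s₁ * y l i := hs₁
    have hs₂' : ∀ l i, mkH K (fun N => r l s₂ N i) = (mk_surj (c l)).choose s₂ * y l i := hs₂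
    -- the ratios
    have h5 : ∀ l, ∃ a : ℕ → K, ∀ i, mkH K (fun N => r l s₂ N i) =
        mkH K a * mkH K (fun N => r l s₁ N i) := by
      intro l
      obtain ⟨a, ha⟩ := mk_surj ((mk_surj (c l)).choose s₂ / (mk_surj (c l)).choose s₁)
      refine ⟨a, fun i => ?_⟩
      have hc0 : (mk_surj (c l)).choose s₁ ≠ 0 := by
        intro hc0
        have h6 : ∀ i, ∀ᶠ N in (𝒰 : Filter ℕ), r l s₁ N i = 0 := by
          intro i
          have h7 := hs₁' l i
          rw [hc0, zero_mul, mk_eq_zero, ← h𝒰] at h7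
          exact h7
        obtain ⟨N, hN, hN'⟩ := ((eventually_all.2 h6).and (hev s₁)).exists
        rw [hr l s₁ N hN'] at hN
        exact (P N ⟨s₁, hN'⟩ l).rep_nonzero (funext hN)
      rw [mkH_apply a, ha, hs₁', hs₂', ← mul_assoc, div_mul_cancel₀ _ hc0]
    choose a ha using h5
    have h6 : ∀ᶠ N in (𝒰 : Filter ℕ), ∀ l i, r l s₂ N i = a l N * r l s₁ N i := by
      rw [eventually_all]
      intro l
      rw [eventually_all]
      intro i
      have h7 := ha l i
      rw [← map_mul, mkH_apply, mkH_apply, mk_eq, ← h𝒰] at h7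
      exact h7
    obtain ⟨N, hN, hN1, hN2⟩ := (h6.and ((hev s₁).and (hev s₂))).exists
    have h8 : P N ⟨s₂, hN2⟩ = P N ⟨s₁, hN1⟩ := by
      funext l
      rw [← (P N ⟨s₂, hN2⟩ l).mk_rep, ← (P N ⟨s₁, hN1⟩ l).mk_rep,
        Projectivization.mk_eq_mk_iff']
      refine ⟨a l N, ?_⟩
      funext i
      have h9 := hN l i
      rw [hr l s₂ N hN2, hr l s₁ N hN1] at h9
      rw [Pi.smul_apply, smul_eq_mul, h9]
    have h9 := hPi N h8
    exact hne (by simpa using (congrArg Fin.val h9).symm)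
  · intro b₀
    -- the quotients as units
    obtain ⟨w, hwΓ, hw⟩ : ∃ w : Fin q → ℕ → ℕ → Kˣ, (∀ b s N, w b s N ∈ Γ) ∧
        ∀ b s N, s < N → (w b s N : K) = qn (t N) (fun l => r l s N) b₀ b := by
      have h1 : ∀ b s N, ∃ w : Kˣ, w ∈ Γ ∧
          (s < N → (w : K) = qn (t N) (fun l => r l s N) b₀ b) := by
        intro b s N
        by_cases h : s < N
        · obtain ⟨γ, hγ, h2⟩ := (hPT N ⟨s, h⟩).2.2 b₀ b
          refine ⟨γ, hγ, fun _ => ?_⟩
          rw [← h2]
          congr 1
          funext l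
          exact (hr l s N h).symm
        · exact ⟨1, Γ.one_mem, fun h' => absurd h' h⟩
      choose w h2 h3 using h1
      exact ⟨w, h2, h3⟩
    have hpv : ∀ b, pv (K := UP K) (L := UP (UP K)) (fun i => UP.mk fun N => t N i)
        (fun l i => mm K fun s N => r l s N i) b = mm K fun s N => pv (t N) (fun l => r l s N) b := by
      intro b
      have h1 : (fun s N => pv (t N) (fun l => r l s N) b) =
          ∏ l, fun s N => fv (t N) (r l s N) b := by
        funext s N
        simp [pv, Finset.prod_apply]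
      rw [h1, map_prod]
      unfold pv
      exact Finset.prod_congr rfl fun l _ => mm_fv t (r l) b
    have hpv0 : ∀ b s N, s < N → pv (t N) (fun l => r l s N) b ≠ 0 := fun b s N h =>
      Finset.prod_ne_zero_iff.2 fun l _ => hfvr l s N h b
    have hqn : ∀ b, qn (K := UP K) (L := UP (UP K)) (fun i => UP.mk fun N => t N i)
        (fun l i => mm K fun s N => r l s N i) b₀ b = mm K fun s N => (w b s N : K) := by
      intro b
      unfold qn
      rw [hpv, hpv, div_eq_iff, ← map_pow, ← map_pow, ← map_mul, mm_eq, ← h𝒰]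
      · refine Eventually.of_forall fun s => (hev s).mono fun N h => ?_
        change pv (t N) (fun l => r l s N) b ^ d b₀ =
          (w b s N : K) * pv (t N) (fun l => r l s N) b₀ ^ d b
        rw [hw b s N h]
        unfold qn
        rw [div_mul_cancel₀ _ (pow_ne_zero _ (hpv0 b₀ s N h))]
      · refine pow_ne_zero _ fun h0 => ?_
        rw [mm_eq_zero, ← h𝒰] at h0
        obtain ⟨s, hs⟩ := h0.exists
        obtain ⟨N, hN, hN'⟩ := (hs.and (hev s)).exists
        exact hpv0 b₀ s N hN' hN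
    intro S c hsum hnp m hm
    simp only [hqn, mm_prod_zpow] at hsum hnp
    have key := hUEU Γ hΓ 𝒰 S (fun m s N => ∏ b, w b s N ^ (m.1 b)) ?_ ?_
      (fun m => c m.1) ?_ ⟨m, hm⟩
    · exact key
    · intro m s N
      exact Subgroup.prod_mem _ (fun b _ => Subgroup.zpow_mem _ (hwΓ b s N) _)
    · intro m m' hmm a hev'
      refine hnp m.1 m.2 m'.1 m'.2 (fun h => hmm (Subtype.ext h)) a ?_
      rw [algMap, mm_apply, mm_apply, ← map_mul, mkH_apply, mkH_apply, mk_eq, ← h𝒰]
      exact hev'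
    · have h1 : ∑ m ∈ S, algebraMap (UP K) (UP (UP K)) (c m) *
          (mm K fun s N => ((∏ b, w b s N ^ m b : Kˣ) : K)) =
          mkH (UP K) (∑ m ∈ S, (fun _ => c m) *
            fun s => mkH K fun N => ((∏ b, w b s N ^ m b : Kˣ) : K)) := by
        rw [map_sum]
        exact Finset.sum_congr rfl (fun m _ => by rw [map_mul, algMap, mm_apply])
      rw [h1, mk_eq_zero, ← h𝒰] at hsum
      filter_upwards [hsum] with s hs
      rw [Finset.sum_apply] at hs
      rw [← hs, ← Finset.sum_coe_sort S]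
      rfl

end Run7.h789.UN
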