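import Pool.Agent.Run7.h789.UN.Fine

/-!
# Uniform bounds for integral points, part 2: the unit equation with arbitrary coefficients

The unit equation for the ultrapower of a finitely generated group, with coefficients in the
ultrapower of the field.
-/

set_option autoImplicit false

namespace Run7.h789.UN

open Module Filter Pool.Agent.NH29.GN Pool.Agent.NH29.GN.STA

/-- a function with values in a finite set is constant along an ultrafilter -/
theorem ev_const {α β : Type} (𝒰 : Ultrafilter α) (E : Finset β) (f : α → β)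
    (h : ∀ᶠ i in (𝒰 : Filter α), f i ∈ E) : ∃ e ∈ E, ∀ᶠ i in (𝒰 : Filter α), f i = e := by
  by_contra hcon
  push Not at hcon
  have h1 : ∀ e ∈ E, ∀ᶠ i in (𝒰 : Filter α), ¬ f i = e := hcon
  have h2 := (E.eventually_all).2 h1
  obtain ⟨i, hi, hi'⟩ := (h.and h2).exists
  exact hi' _ hi rfl

variable {K : Type} [Field K]

/-- the classes of the sequences in `Γ` -/
def Star (Γ : Subgroup Kˣ) (y : UP K) : Prop :=
  ∃ γ : ℕ → Kˣ, (∀ i, γ i ∈ Γ) ∧ y = mkH K (fun i => (γ i : K))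

theorem star_ne {Γ : Subgroup Kˣ} {y : UP K} (h : Star Γ y) : y ≠ 0 := by
  obtain ⟨γ, -, rfl⟩ := h
  exact mk_ne_zero _ fun i => (γ i).ne_zero

theorem star_one (Γ : Subgroup Kˣ) : Star Γ (1 : UP K) :=
  ⟨fun _ => 1, fun _ => Γ.one_mem, by
    rw [← map_one (mkH K)]
    rfl⟩

theorem star_mul {Γ : Subgroup Kˣ} {y z : UP K} (hy : Star Γ y) (hz : Star Γ z) :
    Star Γ (y * z) := by
  obtain ⟨γ, hγ, rfl⟩ := hy
  obtain ⟨δ, hδ, rfl⟩ := hz
  refine ⟨fun i => γ i * δ i, fun i => Γ.mul_mem (hγ i) (hδ i), ?_⟩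
  rw [← map_mul]
  congr 1

theorem star_neg {Γ : Subgroup Kˣ} (h : (-1 : Kˣ) ∈ Γ) {y : UP K} (hy : Star Γ y) :
    Star Γ (-y) := by
  obtain ⟨γ, hγ, rfl⟩ := hy
  refine ⟨fun i => (-1) * γ i, fun i => Γ.mul_mem h (hγ i), ?_⟩
  rw [← map_neg]
  congr 1
  funext i
  simp

theorem star_mono {Γ Γ' : Subgroup Kˣ} (h : Γ ≤ Γ') {y : UP K} (hy : Star Γ y) : Star Γ' y := by
  obtain ⟨γ, hγ, rfl⟩ := hy
  exact ⟨γ, fun i => h (hγ i), rfl⟩

/-- FINE, over the ultrapower -/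
theorem fine_up (hUE : UE K) {Γ : Subgroup Kˣ} (hΓ : Γ.FG) (J : Type) [Fintype J] :
    ∃ E : Finset K, ∀ w : J → UP K, (∀ j, Star Γ (w j)) → ∑ j, w j = 0 →
      (∀ S : Finset J, S.Nonempty → S ≠ Finset.univ → ∑ j ∈ S, w j ≠ 0) →
      ∀ i j, ∃ e ∈ E, w i = algebraMap K (UP K) e * w j := by
  classical
  obtain ⟨E, hE⟩ := fine K hUE Γ hΓ J
  refine ⟨E, fun w hw h0 hS i₀ j₀ => ?_⟩
  choose γ hγ hwγ using hw
  have hsum : ∀ S : Finset J, ∑ j ∈ S, w j = mkH K (fun i => ∑ j ∈ S, (γ j i : K)) := by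
    intro S
    have h1 : (fun i => ∑ j ∈ S, (γ j i : K)) = ∑ j ∈ S, fun i => (γ j i : K) := by
      funext i
      rw [Finset.sum_apply]
    rw [h1, map_sum]
    exact Finset.sum_congr rfl fun j _ => hwγ j
  have h1 : ∀ᶠ i in ((hyperfilter ℕ : Ultrafilter ℕ) : Filter ℕ), ∑ j, (γ j i : K) = 0 := by
    rw [hsum, mk_eq_zero] at h0
    exact h0
  have h2 : ∀ S : Finset J, ∀ᶠ i in ((hyperfilter ℕ : Ultrafilter ℕ) : Filter ℕ), S.Nonempty →
      S ≠ Finset.univ → ∑ j ∈ S, (γ j i : K) ≠ 0 := by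
    intro S
    by_cases h : S.Nonempty ∧ S ≠ Finset.univ
    · have h3 := hS S h.1 h.2
      rw [hsum, Ne, mk_eq_zero] at h3
      have h4 : ∀ᶠ i in ((hyperfilter ℕ : Ultrafilter ℕ) : Filter ℕ), ¬ ∑ j ∈ S, (γ j i : K) = 0 :=
        Ultrafilter.eventually_not.2 h3
      exact h4.mono fun i hi _ _ => hi
    · exact Eventually.of_forall fun i h3 h4 => absurd ⟨h3, h4⟩ h
  have h3 : ∀ᶠ i in ((hyperfilter ℕ : Ultrafilter ℕ) : Filter ℕ), (γ i₀ i : K) / γ j₀ i ∈ E := by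
    filter_upwards [h1, eventually_all.2 h2] with i hi hi'
    exact hE (fun j => γ j i) (fun j => hγ j i) hi hi' i₀ j₀
  obtain ⟨e, he, hev⟩ := ev_const _ E _ h3
  refine ⟨e, he, ?_⟩
  rw [hwγ, hwγ, algMap, ← map_mul, mkH_apply, mkH_apply, mk_eq]
  filter_upwards [hev] with i hi
  change (γ i₀ i : K) = e * γ j₀ i
  rw [← hi, div_mul_cancel₀ _ (γ j₀ i).ne_zero]

/-- the elements of the ring generated by the units are sums of units -/
theorem sum_of_mem {Γ : Subgroup Kˣ} (h : (-1 : Kˣ) ∈ Γ) {y : UP K}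
    (hy : y ∈ Subring.closure {y : UP K | Star Γ y}) :
    ∃ (n : ℕ) (c : Fin n → UP K), (∀ i, Star Γ (c i)) ∧ y = ∑ i, c i := by
  rw [Subring.mem_closure_iff] at hy
  have hT : (Submonoid.closure {y : UP K | Star Γ y} : Set (UP K)) = {y : UP K | Star Γ y} := by
    let T : Submonoid (UP K) :=
      { carrier := {y : UP K | Star Γ y}
        one_mem' := star_one Γ
        mul_mem' := fun h1 h2 => star_mul h1 h2 }
    have : Submonoid.closure {y : UP K | Star Γ y} = T := Submonoid.closure_eq T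
    rw [this]
    rfl
  rw [hT] at hy
  induction hy using AddSubgroup.closure_induction with
  | mem x hx => exact ⟨1, fun _ => x, fun _ => hx, by simp⟩
  | zero => exact ⟨0, fun i => i.elim0, fun i => i.elim0, by simp⟩
  | add x y _ _ hx hy =>
    obtain ⟨n, c, hc, rfl⟩ := hx
    obtain ⟨m, c', hc', rfl⟩ := hy
    refine ⟨n + m, Fin.append c c', fun i => ?_, ?_⟩
    · induction i using Fin.addCases with
      | left i => rw [Fin.append_left]; exact hc i
      | right i => rw [Fin.append_right]; exact hc' i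
    · rw [Fin.sum_univ_add]
      simp only [Fin.append_left, Fin.append_right]
  | neg x _ hx =>
    obtain ⟨n, c, hc, rfl⟩ := hx
    exact ⟨n, fun i => - c i, fun i => star_neg h (hc i), by rw [Finset.sum_neg_distrib]⟩

/-- the case of coefficients which are sums of units -/
theorem ueu_sums (hUE : UE K) {Γ : Subgroup Kˣ} (hΓ : Γ.FG) (𝒰 : Ultrafilter ℕ) (J : Type)
    [Fintype J] [DecidableEq J] (U : ℕ → J → UP K) (hU : ∀ s j, Star Γ (U s j))
    (hnp : ∀ j j', j ≠ j' → ∀ c : UP K, ¬ ∀ᶠ s in (𝒰 : Filter ℕ), U s j = c * U s j')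
    {Ω : Type} [Fintype Ω] (jj : Ω → J) (T : Ω → UP K) (hT : ∀ ω, Star Γ (T ω)) (b : J → UP K)
    (hb : ∀ j, ∑ ω ∈ Finset.univ.filter (fun ω => jj ω = j), T ω = b j)
    (h0 : ∀ᶠ s in (𝒰 : Filter ℕ), ∑ j, b j * U s j = 0) : ∀ j, b j = 0 := by
  classical
  -- a shortest representation
  obtain ⟨S, hS, hmin⟩ := Set.exists_min_image
    {S : Finset Ω | ∀ j, ∑ ω ∈ S.filter (fun ω => jj ω = j), T ω = b j} Finset.card
    (Set.toFinite _) ⟨Finset.univ, hb⟩
  have hS' : ∀ j, ∑ ω ∈ S.filter (fun ω => jj ω = j), T ω = b j := hS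
  suffices hSe : S = ∅ by
    intro j
    rw [← hS' j, hSe]
    simp
  by_contra hne
  obtain ⟨ω₀, hω₀⟩ := Finset.nonempty_iff_ne_empty.2 hne
  have hsum : ∀ᶠ s in (𝒰 : Filter ℕ), ∑ ω ∈ S, T ω * U s (jj ω) = 0 := by
    filter_upwards [h0] with s hs
    rw [← hs]
    have h1 := Finset.sum_fiberwise S jj fun ω => T ω * U s (jj ω)
    rw [← h1]
    refine Finset.sum_congr rfl fun j _ => ?_
    rw [← hS' j, Finset.sum_mul]
    refine Finset.sum_congr rfl fun ω hω => ?_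
    rw [(Finset.mem_filter.1 hω).2]
  -- minimal vanishing subsums
  have hB : ∀ᶠ s in (𝒰 : Filter ℕ), ∃ B : Finset Ω, B ⊆ S ∧ ω₀ ∈ B ∧
      ∑ ω ∈ B, T ω * U s (jj ω) = 0 ∧
      ∀ B' : Finset Ω, B' ⊆ B → B'.Nonempty → B' ≠ B → ∑ ω ∈ B', T ω * U s (jj ω) ≠ 0 := by
    filter_upwards [hsum] with s hs
    obtain ⟨B, ⟨hB1, hB2, hB3⟩, hB4⟩ := Set.exists_min_image
      {B : Finset Ω | B ⊆ S ∧ ω₀ ∈ B ∧ ∑ ω ∈ B, T ω * U s (jj ω) = 0} Finset.card
      (Set.toFinite _) ⟨S, subset_rfl, hω₀, hs⟩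
    refine ⟨B, hB1, hB2, hB3, fun B' hB' hB'n hne' h1 => ?_⟩
    have hlt : B'.card < B.card := Finset.card_lt_card (Finset.ssubset_iff_subset_ne.2 ⟨hB', hne'⟩)
    by_cases h2 : ω₀ ∈ B'
    · exact absurd (hB4 B' ⟨hB'.trans hB1, h2, h1⟩) (not_le.2 hlt)
    · have h3 : ∑ ω ∈ B \ B', T ω * U s (jj ω) = 0 := by
        have h4 := Finset.sum_sdiff (f := fun ω => T ω * U s (jj ω)) hB'
        rw [h1, add_zero, hB3] at h4
        exact h4
      have h5 : (B \ B').card < B.card := by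
        rw [Finset.card_sdiff_of_subset hB']
        have := Finset.card_pos.2 hB'n
        omega
      exact absurd (hB4 (B \ B') ⟨Finset.sdiff_subset.trans hB1,
        Finset.mem_sdiff.2 ⟨hB2, h2⟩, h3⟩) (not_le.2 h5)
  obtain ⟨f, hf⟩ : ∃ f : ℕ → Finset Ω, ∀ s, (∃ B : Finset Ω, B ⊆ S ∧ ω₀ ∈ B ∧
      ∑ ω ∈ B, T ω * U s (jj ω) = 0 ∧
      ∀ B' : Finset Ω, B' ⊆ B → B'.Nonempty → B' ≠ B → ∑ ω ∈ B', T ω * U s (jj ω) ≠ 0) →
      f s ⊆ S ∧ ω₀ ∈ f s ∧
      ∑ ω ∈ f s, T ω * U s (jj ω) = 0 ∧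
      ∀ B' : Finset Ω, B' ⊆ f s → B'.Nonempty → B' ≠ f s → ∑ ω ∈ B', T ω * U s (jj ω) ≠ 0 := by
    refine ⟨fun s => if h : (∃ B : Finset Ω, B ⊆ S ∧ ω₀ ∈ B ∧
      ∑ ω ∈ B, T ω * U s (jj ω) = 0 ∧
      ∀ B' : Finset Ω, B' ⊆ B → B'.Nonempty → B' ≠ B → ∑ ω ∈ B', T ω * U s (jj ω) ≠ 0)
      then h.choose else ∅, fun s h => ?_⟩
    simp only [dif_pos h]
    exact h.choose_spec
  obtain ⟨B, -, hBc⟩ := ev_const 𝒰 Finset.univ f (Eventually.of_forall fun s => Finset.mem_univ _)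
  have hBB : ∀ᶠ s in (𝒰 : Filter ℕ), B ⊆ S ∧ ω₀ ∈ B ∧
      ∑ ω ∈ B, T ω * U s (jj ω) = 0 ∧
      ∀ B' : Finset Ω, B' ⊆ B → B'.Nonempty → B' ≠ B → ∑ ω ∈ B', T ω * U s (jj ω) ≠ 0 := by
    filter_upwards [hB, hBc] with s hs hs'
    have := hf s hs
    rwa [hs'] at this
  obtain ⟨s₀, hBS, hωB, hB0, -⟩ := hBB.exists
  -- the ratios
  obtain ⟨E, hE⟩ := fine_up hUE hΓ B
  have hrat : ∀ ω ∈ B, ∀ᶠ s in (𝒰 : Filter ℕ), ∃ e ∈ E,
      T ω₀ * U s (jj ω₀) = algebraMap K (UP K) e * (T ω * U s (jj ω)) := by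
    intro ω hω
    filter_upwards [hBB] with s hs
    refine hE (fun ω : B => T ω.1 * U s (jj ω.1)) (fun ω => star_mul (hT _) (hU _ _)) ?_ ?_
      ⟨ω₀, hωB⟩ ⟨ω, hω⟩
    · rw [Finset.sum_coe_sort B fun ω => T ω * U s (jj ω)]
      exact hs.2.2.1
    · intro S' hS'n hS'u h1
      refine hs.2.2.2 (S'.map (Function.Embedding.subtype _)) ?_ ?_ ?_ ?_
      · intro x hx
        obtain ⟨y, -, rfl⟩ := Finset.mem_map.1 hx
        exact y.2
      · obtain ⟨y, hy⟩ := hS'n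
        exact ⟨y.1, Finset.mem_map.2 ⟨y, hy, rfl⟩⟩
      · intro h2
        apply hS'u
        rw [Finset.eq_univ_iff_forall]
        intro y
        have h3 : y.1 ∈ S'.map (Function.Embedding.subtype _) := by
          rw [h2]
          exact y.2
        obtain ⟨z, hz, hzy⟩ := Finset.mem_map.1 h3
        have : z = y := Subtype.ext hzy
        rwa [← this]
      · rw [Finset.sum_map]
        exact h1
  have hjj : ∀ ω ∈ B, jj ω = jj ω₀ := by
    intro ω hω
    by_contra hne'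
    obtain ⟨g, hg⟩ : ∃ g : ℕ → K, ∀ s, (∃ e ∈ E,
      T ω₀ * U s (jj ω₀) = algebraMap K (UP K) e * (T ω * U s (jj ω))) → g s ∈ E ∧
      T ω₀ * U s (jj ω₀) = algebraMap K (UP K) (g s) * (T ω * U s (jj ω)) := by
      refine ⟨fun s => if h : (∃ e ∈ E,
        T ω₀ * U s (jj ω₀) = algebraMap K (UP K) e * (T ω * U s (jj ω))) then h.choose else 0,
        fun s h => ?_⟩
      simp only [dif_pos h]
      exact h.choose_spec
    obtain ⟨e, -, he⟩ := ev_const 𝒰 E g ((hrat ω hω).mono fun s hs => (hg s hs).1)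
    refine hnp (jj ω₀) (jj ω) (fun h => hne' h.symm) (algebraMap K (UP K) e * T ω / T ω₀) ?_
    filter_upwards [hrat ω hω, he] with s hs hs'
    have h1 := (hg s hs).2
    rw [hs'] at h1
    have h2 := star_ne (hT ω₀)
    field_simp
    linear_combination h1
  have hTB : ∑ ω ∈ B, T ω = 0 := by
    have h1 : ∑ ω ∈ B, T ω * U s₀ (jj ω) = (∑ ω ∈ B, T ω) * U s₀ (jj ω₀) := by
      rw [Finset.sum_mul]
      exact Finset.sum_congr rfl fun ω hω => by rw [hjj ω hω]
    rw [hB0] at h1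
    exact (mul_eq_zero.1 h1.symm).resolve_right (star_ne (hU _ _))
  -- a shorter representation
  have hlt : (S \ B).card < S.card := by
    rw [Finset.card_sdiff_of_subset hBS]
    have h1 := Finset.card_pos.2 ⟨ω₀, hωB⟩
    have h2 := Finset.card_le_card hBS
    omega
  refine absurd (hmin (S \ B) fun j => ?_) (not_le.2 hlt)
  rw [← hS' j]
  by_cases hj : j = jj ω₀
  · have h1 : S.filter (fun ω => jj ω = j) = (S \ B).filter (fun ω => jj ω = j) ∪ B := by
      ext ω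
      simp only [Finset.mem_filter, Finset.mem_union, Finset.mem_sdiff]
      constructor
      · rintro ⟨h1, h2⟩
        by_cases h3 : ω ∈ B
        · exact Or.inr h3
        · exact Or.inl ⟨⟨h1, h3⟩, h2⟩
      · rintro (⟨⟨h1, -⟩, h2⟩ | h1)
        · exact ⟨h1, h2⟩
        · exact ⟨hBS h1, by rw [hjj ω h1, hj]⟩
    rw [h1, Finset.sum_union, hTB, add_zero]
    rw [Finset.disjoint_left]
    intro ω h2 h3
    exact (Finset.mem_sdiff.1 (Finset.mem_filter.1 h2).1).2 h3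
  · refine Finset.sum_congr ?_ fun _ _ => rfl
    ext ω
    simp only [Finset.mem_filter, Finset.mem_sdiff]
    constructor
    · rintro ⟨⟨h1, -⟩, h2⟩
      exact ⟨h1, h2⟩
    · rintro ⟨h1, h2⟩
      refine ⟨⟨h1, fun h3 => hj ?_⟩, h2⟩
      rw [← h2, hjj ω h3]

/-- UEU -/
theorem ueu : UeuStm := by
  classical
  intro K _ hUE Γ hΓ 𝒰 J _ u hu hnp a ha j₀
  by_contra ha0
  -- add `-1`
  obtain ⟨Γ', hΓ'⟩ : ∃ Γ' : Subgroup Kˣ, Γ' = Γ ⊔ Subgroup.closure {(-1 : Kˣ)} := ⟨_, rfl⟩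
  have hFG : Γ'.FG := by
    rw [hΓ']
    exact hΓ.sup ⟨{-1}, by simp⟩
  have hneg : (-1 : Kˣ) ∈ Γ' := by
    rw [hΓ']
    exact Subgroup.mem_sup_right (Subgroup.subset_closure rfl)
  have hle : Γ ≤ Γ' := by
    rw [hΓ']
    exact le_sup_left
  let U : ℕ → J → UP K := fun s j => mkH K (fun i => (u j s i : K))
  have hU : ∀ s j, Star Γ' (U s j) := fun s j => ⟨u j s, fun i => hle (hu j s i), rfl⟩
  -- the field generated by the units
  let F : Subfield (UP K) := Subfield.closure {y : UP K | Star Γ' y}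
  have hUF : ∀ s j, U s j ∈ F := fun s j => Subfield.subset_closure (hU s j)
  obtain ⟨φ, hφ⟩ : ∃ φ : Module.Dual F (UP K), φ (a j₀) ≠ 0 := by
    by_contra h
    push Not at h
    exact ha0 ((Module.forall_dual_apply_eq_zero_iff F (a j₀)).1 h)
  have hden : ∀ j, ∃ y ∈ Subring.closure {y : UP K | Star Γ' y},
      ∃ z ∈ Subring.closure {y : UP K | Star Γ' y}, z ≠ 0 ∧ ((φ (a j) : F) : UP K) * z = y := by
    intro j
    obtain ⟨y, hy, z, hz, hyz⟩ := Subfield.mem_closure_iff.1 (φ (a j)).2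
    by_cases h : z = 0
    · refine ⟨0, Subring.zero_mem _, 1, Subring.one_mem _, one_ne_zero, ?_⟩
      rw [← hyz, h, div_zero, zero_mul]
    · exact ⟨y, hy, z, hz, h, by rw [← hyz, div_mul_cancel₀ _ h]⟩
  choose y hy z hz hz0 hyz using hden
  let D : UP K := ∏ j, z j
  have hD0 : D ≠ 0 := Finset.prod_ne_zero_iff.2 fun j _ => hz0 j
  let b : J → UP K := fun j => ((φ (a j) : F) : UP K) * D
  have hbR : ∀ j, b j ∈ Subring.closure {y : UP K | Star Γ' y} := by
    intro j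
    have h1 : b j = y j * ∏ i ∈ Finset.univ.erase j, z i := by
      change ((φ (a j) : F) : UP K) * ∏ j, z j = _
      rw [← Finset.mul_prod_erase Finset.univ z (Finset.mem_univ j), ← mul_assoc, hyz]
    rw [h1]
    exact Subring.mul_mem _ (hy j) (Subring.prod_mem _ fun i _ => hz i)
  choose n c hc hbc using fun j => sum_of_mem hneg (hbR j)
  have hb0 := ueu_sums hUE hFG 𝒰 J U hU hnp (Ω := (j : J) × Fin (n j)) (fun ω => ω.1)
    (fun ω => c ω.1 ω.2) (fun ω => hc _ _) b (fun j => by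
      rw [hbc j]
      rw [Finset.sum_filter, Fintype.sum_sigma]
      rw [Finset.sum_eq_single j]
      · simp
      · intro i _ hi
        refine Finset.sum_eq_zero fun x _ => ?_
        rw [if_neg hi]
      · intro h
        exact absurd (Finset.mem_univ j) h) (by
      filter_upwards [ha] with s hs
      have h1 : φ (∑ j, a j * U s j) = 0 := by
        have h2 : ∑ j, a j * U s j = 0 := hs
        rw [h2, map_zero]
      rw [map_sum] at h1
      have h3 : ∀ j, φ (a j * U s j) = ⟨U s j, hUF s j⟩ * φ (a j) := by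
        intro j
        have h4 : a j * U s j = (⟨U s j, hUF s j⟩ : F) • a j := by
          rw [mul_comm]
          rfl
        rw [h4, map_smul, smul_eq_mul]
      simp only [h3] at h1
      have h5 := congrArg (fun y : F => (y : UP K)) h1
      simp only [AddSubmonoidClass.coe_finsetSum, MulMemClass.coe_mul, ZeroMemClass.coe_zero] at h5
      have h6 : ∑ j, b j * U s j = (∑ j, U s j * ((φ (a j) : F) : UP K)) * D := by
        rw [Finset.sum_mul]
        refine Finset.sum_congr rfl fun j _ => ?_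
        change ((φ (a j) : F) : UP K) * D * U s j = _
        ring
      rw [h6, h5, zero_mul]) j₀
  have h1 : ((φ (a j₀) : F) : UP K) * D = 0 := hb0
  rcases mul_eq_zero.1 h1 with h2 | h2
  · exact hφ (Subtype.ext h2)
  · exact hD0 h2

end Run7.h789.UN
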