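import Pool.Agent.Run7.h789.UN.Stu
import Pool.Agent.NH29.GH.Stbd
import Pool.Agent.NH29.GH.Fin
import Pool.Agent.K1H41.PA.Uli
import Pool.Agent.K1H33.PA.UliQ

/-!
# Uniform bounds for integral points, part 4: the uniform bound for tuples of points
-/

set_option autoImplicit false

namespace Run7.h789.UN

open MvPolynomial Module Filter
open Pool.Agent.NH29.GN (Idx Mon fv val NoZero UE UEU UP der alg rel lin prj)
open Pool.Agent.NH29.GH (stbd)
open Pool.Agent.NH8.GD (qn pv stc rk)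
open scoped LinearAlgebra.Projectivization

/-- the unit equation over all fields of characteristic zero -/
theorem ue (K : Type) [Field K] [CharZero K] : UE K := by
  intro Γ hΓ 𝒰 J _ u hu hnp a ha j
  have h := (Pool.Agent.K1H41.PA.t_ULI Pool.Agent.K1H33.PA.t_ULI_Q) K
  have h1 := Pool.Agent.K1H41.PA.ULI.fin h Γ hΓ 𝒰 u hu hnp a ha
  exact congrFun h1 j

/-- the unit equation over an ultrapower, for all fields of characteristic zero -/
theorem ueuK (K : Type) [Field K] [CharZero K] : UEU K := ueu K (ue K)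

/-- **The uniform bound for the number of tuples.** -/
theorem unif_one {k : Type} [Field k] [CharZero k] {M n q δ : ℕ}
    {V : Set (MvPolynomial (Fin (M + 1)) k)} (hV : ∀ H ∈ V, ∃ e, H.IsHomogeneous e)
    {ℓ : Fin (n + 1) → MvPolynomial (Fin (M + 1)) k} (hℓ : ∀ j, (ℓ j).IsHomogeneous 1)
    (hN : NoZero V ℓ) {d : Fin q → ℕ} (hd : ∀ i, 1 ≤ d i) (hq : n * δ + 2 ≤ q)
    (hnum : ∀ b, δ * (q - 1) < (q - n * δ - 1) * (d b + 2 - δ)) :
    ∃ Φ : MvPolynomial (Idx M d) k, Φ ≠ 0 ∧
      ∀ (K : Type) [Field K] [Algebra k K] [IsAlgClosed K] (Γ : Subgroup Kˣ), Γ.FG →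
        ∃ N : ℕ, ∀ t : Idx M d → K, aeval t Φ ≠ 0 →
          ∀ P : Fin N → Fin δ → ℙ K (Fin (M + 1) → K), Function.Injective P →
            ¬ ∀ j, TupD V t Γ (P j) := by
  classical
  by_contra hcon
  push Not at hcon
  obtain ⟨K', L', _, _, _, _, _, t', x', ht', hx'⟩ := stbd k M q δ V d (by
    intro Q hQ
    obtain ⟨K, iK, iA, iC, Γ, hΓ, h⟩ := hcon Q hQ
    have : CharZero K := charZero_of_injective_algebraMap (algebraMap k K).injective
    choose t ht P hPi hP using h
    obtain ⟨x, hx⟩ := stuD (ueuK K) t hΓ fun N => ⟨P N, hPi N, hP N⟩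
    let _ : Algebra k (UP K) := ((algebraMap K (UP K)).comp (algebraMap k K)).toAlgebra
    refine ⟨UP K, UP (UP K), inferInstance, inferInstance, inferInstance, inferInstance,
      Pool.Agent.NH29.GN.Fn.closed_UP K, fun i => UP.mk fun N => t N i, x, ?_, hx⟩
    rw [Pool.Agent.NH29.GN.Fn.mk_aeval]
    exact Pool.Agent.NH29.GN.STA.mk_ne_zero _ ht)
  exact stc der alg rel lin rk k K' L' M n q δ V hV ℓ hℓ hN d hd hq hnum t' ht' x' hx'

end Run7.h789.UN
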